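import Pool.Agent.H1.VS.Main

set_option autoImplicit false
set_option linter.unusedSectionVars false
set_option linter.unusedVariables false

/-! # The series of the volumes of a polynomial with affinely independent exponents -/

namespace Pool.Agent.H1.VS

open MvPolynomial Pool.Agent.H628R4.TP Pool.Agent.W425.MM Pool.Agent.W425.GN
open Pool.Agent.W425.ND (spa)
open Pool.Agent.W426.SM (gord IsRay)
open Pool.Agent.W425.SM (Ind)
open Pool.Agent.W425.SV (Kil1)
open Pool.Agent.TH216.MF (RelG Spread relG_of_relM nonD_of_ind)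
open Pool.Agent.TH216.MC (HB hb_ind pos_of_ray)
open Pool.Agent.W428.MOT (Pt Constr Meas sp)
open Pool.Agent.Q57.MD (VW)
open Pool.Agent.TH192.DT (ratU)

/-- **Affinely independent exponents.** -/
theorem vind {r N : ℕ} (hr : 2 ≤ r) (v : Fin r → Fin N → ℕ) (hv : Ind v) (c : Fin r → ℂ)
    (hc : ∀ j, c j ≠ 0) :
    ∃ S : Finset (ℤ × ℤ),
      (∀ p ∈ S, p.1 < 0 ∧ 0 < p.2 ∧ ∀ b : Polynomial ℂ, IsBFunction (spa v c) b →
        b.eval ((p.1 : ℂ) / p.2) = 0) ∧
      ∀ {R : Type} [CommRing R] (M : Meas ℂ R) (u : Rˣ), M.L = (u : R) →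
      ∀ (W : Set (Pt ℂ (Fin N))), Constr W →
        VW M ((u⁻¹ : Rˣ) : R) (fun _ : Fin 1 => spa v c) W ∈ ratU u (S : Set (ℤ × ℤ)) := by
  classical
  have hr0 : 0 < r := by omega
  set f : MvPolynomial (Fin N) ℂ := spa v c with hf
  have hnd : NonD v c := nonD_of_ind hr0 v hv _ hc
  have hA : ∀ b : Polynomial ℂ, IsBFunction f b → ∃ P, b = (Polynomial.X + 1) * P ∧
      RelG v (Kil1 v) (Spread v) P := by
    intro b hb
    obtain ⟨P, h1, h2⟩ := Pool.Agent.W525.SM.taskA v _ b hr hv hc hb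
    exact ⟨P, h1, relG_of_relM v P h2⟩
  have hB : HB v fun σ => ∃ b, IsBFunction f b ∧ b.eval (-(σ : ℂ)) ≠ 0 := by
    rintro J q hq e he T0 hT0 σ ⟨b, hb, hne⟩ hlog
    obtain ⟨P, h1, h2⟩ := hA b hb
    refine hb_ind v P h2 J q hq e he T0 hT0 σ ?_ hlog
    intro h3
    apply hne
    rw [h1, Polynomial.eval_mul, h3, mul_zero]
  obtain ⟨S, hS, hz⟩ := vfin_bad v hr0 _ hB
  have hsp : spa v c = sp 0 v c 1 := by
    unfold sp spa
    simp
  refine ⟨S, fun p hp => ?_, ?_⟩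
  · rcases hS p hp with rfl | ⟨a, ha, hg, hn, rfl⟩
    · refine ⟨by norm_num, by norm_num, fun b hb => ?_⟩
      obtain ⟨P, h1, -⟩ := hA b hb
      rw [h1, Polynomial.eval_mul]
      simp
    · refine ⟨pos_of_ray ha, Int.natCast_pos.2 hg, fun b hb => ?_⟩
      by_contra hne
      apply hn
      refine ⟨b, hb, ?_⟩
      have e : -((((∑ i, a i : ℕ) : ℚ) / gord v a : ℚ) : ℂ) =
          ((-((∑ i, a i : ℕ) : ℤ) : ℤ) : ℂ) / ((gord v a : ℤ) : ℂ) := by
        push_cast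
        ring
      rw [e]
      exact hne
  · intro R _ M u hL W hW
    rw [hf, hsp]
    refine hz ℂ c (nonG_of_nonD _ _ ?_) hc M u hL W hW
    exact nonD_ext (k := ℂ) (L := AlgebraicClosure ℂ) _ _ hnd

end Pool.Agent.H1.VS
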