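import Pool.Agent.H1.VS.Rat
import Pool.Graph.R_seed8.TH216.MF.MotL
import Pool.Graph.R_pool_sql_team_seeded_3997aac3.Q57.MD.VSer

set_option autoImplicit false
set_option linter.unusedSectionVars false
set_option linter.unusedVariables false

/-! # The classes of the strata, for arcs with any order and for arcs with angular component one -/

namespace Pool.Agent.H1.VS

open MvPolynomial
open Pool.Agent.W428.MOT Pool.Agent.W749.MT
open Pool.Agent.W375.MG (Good GB0 GB1 constr_W constr_GB1 good_one good_units)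
open Pool.Agent.TH216.MC (ZS XS chi_GB1 chi_GB0 ZS_norm constr_ZS constr_XS constr_base b1_rel
  b0_empty gbar_update)
open Pool.Agent.TH216.MF (frc frc_le)

section cls

variable {K : Type} [Field K] {n r : ℕ} {R : Type} [CommRing R]

/-- the unit coordinate -/
theorem none_free (h1 : S_Free) (M : Meas K R) {W : Set (Pt K (Fin n))} (hW : Constr W)
    (J T : Finset (Fin n)) {H : Set (Pt K (Option (Fin n)))} (hH : Constr H)
    (hinv : ∀ z w : Pt K (Option (Fin n)), (∀ i, w (some i) = z (some i)) → z ∈ H → w ∈ H) :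
    M.χ _ (ZS W J T (H ∩ {z | z none ≠ 0})) =
      M.χ _ (ZS W J T (H ∩ {z | z none = 1})) * (M.L - 1) := by
  classical
  have key := h1 M (ZS W J T H) {none} ∅ (fun _ => 1) (Finset.disjoint_empty_right _)
    (constr_ZS hW J T hH) ?_
  · rw [Finset.card_singleton, pow_one, Finset.card_empty, pow_zero, mul_one] at key
    have e1 : ZS W J T H ∩ {z | ∀ i ∈ ({none} : Finset (Option (Fin n))), z i ≠ 0} =
        ZS W J T (H ∩ {z | z none ≠ 0}) := by
      ext z
      simp only [ZS, Set.mem_inter_iff, Set.mem_ofPred_eq, Finset.mem_singleton, forall_eq]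
      tauto
    have e2 : ZS W J T H ∩ {z | ∀ i ∈ ({none} : Finset (Option (Fin n))) ∪ ∅,
        z i = algebraMap K _ (1 : K)} = ZS W J T (H ∩ {z | z none = 1}) := by
      ext z
      simp only [ZS, Set.mem_inter_iff, Set.mem_ofPred_eq, Finset.mem_singleton,
        Finset.union_empty, forall_eq, map_one]
      tauto
    rw [e1, e2] at key
    exact key
  · intro z w hzw hz
    have h2 : ∀ i, w (some i) = z (some i) := fun i => hzw _ (by simp) (Finset.notMem_empty _)
    obtain ⟨a, b, c, d⟩ := hz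
    refine ⟨?_, fun i => ?_, fun i hi => ?_, hinv z w h2 d⟩
    · simp only [h2]
      exact a
    · rw [h2]
      exact b i
    · rw [h2]
      exact c i hi

/-- the coordinate one -/
theorem none_one (M : Meas K R) {Q : Set (Pt K (Fin n))} (hQ : Constr Q)
    {Q' : Set (Pt K (Option (Fin n)))} (hQ' : Constr Q')
    (h : ∀ z : Pt K (Option (Fin n)), z ∈ Q' ↔ z none = 1 ∧ (fun i => z (some i)) ∈ Q) :
    M.χ _ Q' = M.χ _ Q := by
  refine M.iso _ _ hQ' hQ (fun z i => z (some i)) (fun z o => o.elim 1 z)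
    (regularOn_poly (fun i => IsPF.coord _) _) (regularOn_poly (fun o => ?_) _) ?_ ?_ ?_ ?_
  · rcases o with _ | i
    · exact IsPF.one
    · exact IsPF.coord i
  · intro z hz
    exact ((h z).1 hz).2
  · intro z hz
    exact (h _).2 ⟨rfl, hz⟩
  · intro z hz
    funext o
    rcases o with _ | i
    · exact ((h z).1 hz).1.symm
    · rfl
  · intro z _
    rfl

/-- the base -/
def PS (m : Fin r → Fin n → ℕ) (W : Set (Pt K (Fin n))) (J : Finset (Fin n))
    (τ : Finset (Fin r)) : Set (Pt K (Fin n)) :=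
  {z | (fun i => if i ∈ J then 0 else z i) ∈ W ∧ (∀ i, z i ≠ 0) ∧
    (∀ i ∈ free 0 m J τ, z i = 1)}

theorem constr_PS (m : Fin r → Fin n → ℕ) {W : Set (Pt K (Fin n))} (hW : Constr W)
    (J : Finset (Fin n)) (τ : Finset (Fin r)) : Constr (PS m W J τ) := by
  refine Constr.and ?_ (Constr.and (Constr.all fun _ => Constr.ne (IsPF.coord _) IsPF.zero)
    (Constr.ballFinset _ fun _ _ => Constr.eq (IsPF.coord _) IsPF.one))
  refine constr_W hW (fun (z : Pt K (Fin n)) i => if i ∈ J then 0 else z i) fun i => ?_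
  by_cases h : i ∈ J
  · simpa only [if_pos h] using IsPF.zero (K := K)
  · simpa only [if_neg h] using IsPF.coord (K := K) i

theorem constr_none : Constr {z : Pt K (Option (Fin n)) | z none = 1} :=
  Constr.eq (IsPF.coord _) IsPF.one

theorem free_sub (m : Fin r → Fin n → ℕ) (J : Finset (Fin n)) (τ : Finset (Fin r)) :
    free 0 m J τ ⊆ J := Finset.filter_subset _ _

/-- the class of the base -/
theorem chi_PS (h1 : S_Free) (M : Meas K R) (m : Fin r → Fin n → ℕ) {W : Set (Pt K (Fin n))}
    (hW : Constr W) (J : Finset (Fin n)) (τ : Finset (Fin r)) :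
    M.χ _ (PS m W J τ) = M.χ _ (ZS W J J {z | z none = 1}) *
      (M.L - 1) ^ (J.card - frc m J τ) := by
  have e1 := ZS_norm h1 M hW J (free 0 m J τ) J (free_sub m J τ) (Finset.Subset.refl _)
    constr_none (fun z w hn _ hz => by
      change w none = 1
      rw [hn]
      exact hz)
  rw [← none_one M (constr_PS m hW J τ) (constr_ZS hW J (free 0 m J τ) constr_none) (fun z => by
    simp only [ZS, PS, Set.mem_ofPred_eq]
    tauto), e1]
  rfl

/-- the class of `τ`, for arcs with angular component one -/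
theorem chi_one (M : Meas K R) (m : Fin r → Fin n → ℕ) (c : Fin r → K)
    {W : Set (Pt K (Fin n))} (hW : Constr W) (J : Finset (Fin n)) (τ : Finset (Fin r)) :
    M.χ _ (GB1 0 m c 1 W {1} J τ) =
      M.χ _ (PS m W J τ ∩ {z | gbar m (cb c) τ z = 0}) := by
  rw [chi_GB1]
  refine none_one M ((constr_PS m hW J τ).inter (Constr.eqz (IsPF_gbar m c τ id)))
    (constr_ZS hW J _ (constr_XS m c good_one J IsPF.zero τ)) fun z => ?_
  simp only [ZS, XS, PS, Set.mem_inter_iff, Set.mem_ofPred_eq, Set.mem_singleton_iff]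
  tauto

/-- the class of `∅`, for arcs with angular component one -/
theorem chi_one_empty (M : Meas K R) (m : Fin r → Fin n → ℕ) (c : Fin r → K)
    {W : Set (Pt K (Fin n))} (J : Finset (Fin n)) :
    M.χ _ (GB1 0 m c 1 W {1} J ∅) = M.χ _ (ZS W J J {z | z none = 1}) := by
  rw [chi_GB1]
  congr 1
  ext z
  simp only [ZS, XS, Set.mem_ofPred_eq, free, gbar, Finset.sum_empty, Finset.notMem_empty,
    Pi.zero_apply, true_and, false_implies, implies_true, Finset.filter_true,
    Set.mem_singleton_iff]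

/-- (R3) -/
theorem rel0 (h1 : S_Free) (M : Meas K R) (m : Fin r → Fin n → ℕ) (c : Fin r → K)
    {W : Set (Pt K (Fin n))} (hW : Constr W) (J : Finset (Fin n)) (τ : Finset (Fin r)) :
    M.χ _ (GB0 0 m c 1 W {a | a ≠ 0} J τ) =
      M.χ _ (GB1 0 m c 1 W {1} J ∅) * (M.L - 1) ^ (J.card - frc m J τ) -
        M.χ _ (GB1 0 m c 1 W {1} J τ) := by
  have e0 : GB0 0 m c 1 W {a | a ≠ 0} J τ = PS m W J τ ∩ {z | ¬ gbar m (cb c) τ z = 0} := by
    ext z
    simp only [GB0, PS, Set.mem_inter_iff, Set.mem_ofPred_eq, Pi.zero_apply, pow_zero,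
      Finset.prod_const_one, pow_one, one_mul]
    tauto
  have hg : Constr {z : Pt K (Fin n) | gbar m (cb c) τ z = 0} :=
    Constr.eqz (IsPF_gbar m c τ id)
  have e2 : M.χ _ (PS m W J τ) = M.χ _ (PS m W J τ ∩ {z | gbar m (cb c) τ z = 0}) +
      M.χ _ (PS m W J τ ∩ {z | ¬ gbar m (cb c) τ z = 0}) := by
    rw [← M.add _ _ ((constr_PS m hW J τ).inter hg) ((constr_PS m hW J τ).inter hg.not)]
    · congr 1
      ext z
      simp only [Set.mem_union, Set.mem_inter_iff, Set.mem_ofPred_eq]
      tauto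
    · rw [Set.disjoint_left]
      rintro z ⟨-, h⟩ ⟨-, h'⟩
      exact h' h
  rw [e0, chi_one M m c hW J τ, chi_one_empty, ← chi_PS h1 M m hW, e2]
  ring

/-- (R2) -/
theorem rel1 (h1 : S_Free) (M : Meas K R) (m : Fin r → Fin n → ℕ) (c : Fin r → K)
    {W : Set (Pt K (Fin n))} (hW : Constr W) (J : Finset (Fin n)) (τ : Finset (Fin r)) :
    M.χ _ (GB1 0 m c 1 W {a | a ≠ 0} J τ) = (M.L - 1) * M.χ _ (GB1 0 m c 1 W {1} J τ) := by
  have h2 := none_free h1 M hW J (free 0 m J τ)
    (H := {z | gbar m (cb c) τ (fun i => z (some i)) = 0})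
    (Constr.eqz (IsPF_gbar m c τ some)) (fun z w h hz => by
      change gbar m (cb c) τ (fun i => w (some i)) = 0
      simp only [h]
      exact hz)
  rw [chi_GB1, chi_GB1, mul_comm]
  exact h2

/-- (R5) -/
theorem chi_strata (M : Meas K R) (m : Fin r → Fin n → ℕ) (c : Fin r → K)
    {W : Set (Pt K (Fin n))} (hW : Constr W) :
    M.χ _ W = ∑ J : Finset (Fin n), M.χ _ (GB1 0 m c 1 W {1} J ∅) := by
  classical
  have hP : ∀ J : Finset (Fin n), Constr {z : Pt K (Fin n) | ∀ i, z i = 0 ↔ i ∈ J} := by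
    intro J
    refine Constr.all fun i => ?_
    by_cases h : i ∈ J
    · simp only [h, iff_true]
      exact Constr.eqz (IsPF.coord _)
    · simp only [h, iff_false]
      exact (Constr.eqz (IsPF.coord _)).not
  rw [χ_cover M W (fun J : Finset (Fin n) => {z : Pt K (Fin n) | ∀ i, z i = 0 ↔ i ∈ J}) hW hP
    (fun J J' hJ => by
      rw [Set.disjoint_left]
      intro z h h'
      apply hJ
      ext i
      exact (h i).symm.trans (h' i))
    (fun z _ => ⟨Finset.univ.filter fun i => z i = 0, fun i => by simp⟩)]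
  refine Finset.sum_congr rfl fun J _ => ?_
  rw [chi_one_empty]
  set Q : Set (Pt K (Fin n)) := {z | (fun i => if i ∈ J then 0 else z i) ∈ W ∧ (∀ i, z i ≠ 0) ∧
    (∀ i ∈ J, z i = 1)} with hQ
  have hQc : Constr Q := by
    refine Constr.and ?_ (Constr.and (Constr.all fun _ => Constr.ne (IsPF.coord _) IsPF.zero)
      (Constr.ballFinset _ fun _ _ => Constr.eq (IsPF.coord _) IsPF.one))
    refine constr_W hW (fun (z : Pt K (Fin n)) i => if i ∈ J then 0 else z i) fun i => ?_
    by_cases h : i ∈ J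
    · simpa only [if_pos h] using IsPF.zero (K := K)
    · simpa only [if_neg h] using IsPF.coord (K := K) i
  rw [none_one M hQc (constr_ZS hW J J constr_none) (fun z => by
    simp only [ZS, hQ, Set.mem_ofPred_eq]
    tauto)]
  refine M.iso _ _ (hW.inter (hP J)) hQc (fun z i => if i ∈ J then 1 else z i)
    (fun z i => if i ∈ J then 0 else z i) (regularOn_poly (fun i => ?_) _)
    (regularOn_poly (fun i => ?_) _) ?_ ?_ ?_ ?_
  · by_cases h : i ∈ J
    · simpa only [if_pos h] using IsPF.one (K := K)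
    · simpa only [if_neg h] using IsPF.coord (K := K) i
  · by_cases h : i ∈ J
    · simpa only [if_pos h] using IsPF.zero (K := K)
    · simpa only [if_neg h] using IsPF.coord (K := K) i
  · rintro z ⟨h, h'⟩
    refine ⟨?_, fun i => ?_, fun i hi => if_pos hi⟩
    · have : (fun i => if i ∈ J then 0 else if i ∈ J then 1 else z i) = z := by
        funext i
        by_cases hi : i ∈ J
        · rw [if_pos hi, (h' i).2 hi]
        · rw [if_neg hi, if_neg hi]
      rw [this]
      exact h
    · by_cases hi : i ∈ J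
      · beta_reduce
        rw [if_pos hi]
        exact one_ne_zero
      · beta_reduce
        rw [if_neg hi]
        exact fun h0 => hi ((h' i).1 h0)
  · rintro z ⟨h, h', h''⟩
    refine ⟨h, fun i => ?_⟩
    beta_reduce
    by_cases hi : i ∈ J
    · simp [hi]
    · simp [hi, h' i]
  · rintro z ⟨h, h'⟩
    funext i
    by_cases hi : i ∈ J
    · simp only [if_pos hi]
      exact ((h' i).2 hi).symm
    · simp only [if_neg hi]
  · rintro z ⟨h, h', h''⟩
    funext i
    by_cases hi : i ∈ J
    · simp only [if_pos hi]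
      exact (h'' i hi).symm
    · simp only [if_neg hi]

end cls

end Pool.Agent.H1.VS
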