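import Pool.Agent.H1.VS.Cls

set_option autoImplicit false
set_option linter.unusedSectionVars false
set_option linter.unusedVariables false

/-! # The series of the volumes of the sets `ord ≥ N` of a nondegenerate polynomial -/

namespace Pool.Agent.H1.VS

open MvPolynomial
open Pool.Agent.W428.MOT Pool.Agent.W749.MT Pool.Agent.W425.MM.Mot
open Pool.Agent.W375.MG (Good GB0 GB1 constr_W constr_GB1 good_one good_units JetG)
open Pool.Agent.TH216.MC (b1_rel)
open Pool.Agent.TH216.MF (frc frc_le free_step cser cf Psi Omg Gd fac IsPol KRelJ RecJ formal ratR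
  inRat_J FR evR geoR_mul)
open Pool.Agent.W426.SM (gord ford IsRay face)
open Pool.Agent.W803.SM (gord_le)
open Pool.Agent.W63.MTFin (geo_sum)
open Pool.Agent.Q57.MD (VW ZW_eq coeff_VW sh coeff_sh diff_unique VW_add VW_off)
open Pool.Agent.Q57.MC (ZW_coeff jetF_one)
open Pool.Agent.Q49.CO (ZW vol_zero)
open Pool.Agent.TH192.MT (JetS JetF)

section main

variable {K : Type} [Field K] {n r : ℕ} {R : Type} [CommRing R]

/-- the coefficients of the class formula -/
theorem fr_coeff (u : Rˣ) (M : Meas K R) (hL : M.L = (u : R)) (m : Fin r → Fin n → ℕ)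
    (J : Finset (Fin n)) (b0 b1 : Finset (Fin r) → R) (hr0 : 0 < r) (N : ℕ) (hN : 1 ≤ N) :
    PowerSeries.coeff N (FR u m J b0 b1) =
      ∑ τ : Finset (Fin r), M.L ^ (free 0 m J τ).card * (b0 τ *
            Polynomial.eval₂ (Int.castRingHom R) ((u⁻¹ : Rˣ) : R) (cp 0 m 1 J τ N N) +
          ∑ l ∈ Finset.Icc 1 N, if 1 * l ≤ N then b1 τ * ((u⁻¹ : Rˣ) : R) ^ l *
              Polynomial.eval₂ (Int.castRingHom R) ((u⁻¹ : Rˣ) : R)
                (cp 0 m 1 J τ N (N - 1 * l)) else 0) := by
  classical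
  set Y : R := ((u⁻¹ : Rˣ) : R) with hY
  have h5 : S_CP1 := Pool.Agent.W346.MTCp1.main
  set C : Finset (Fin r) → PowerSeries R := fun τ =>
      PowerSeries.map (evR u) (cser m J τ) with hCdef
  have hCc : ∀ τ N, PowerSeries.coeff N (C τ) =
        Polynomial.eval₂ (Int.castRingHom R) Y (cp 0 m 1 J τ N N) := fun τ N => by
      simp only [hCdef, cser]
      rw [PowerSeries.coeff_map, PowerSeries.coeff_mk]
      rfl
  set D : Finset (Fin r) → PowerSeries R := fun τ =>
      PowerSeries.mk fun N => ∑ l ∈ Finset.Icc 1 N,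
        if 1 * l ≤ N then Y ^ l * PowerSeries.coeff (N - 1 * l) (C τ) else 0
      with hDdef
  have hD : ∀ τ, D τ = PowerSeries.C Y * PowerSeries.X * C τ * geoR u (-1) 1 := by
      intro τ
      have h6 := geo_sum Y (fun N => PowerSeries.coeff N (C τ)) 1 one_pos
      have h7 := geoR_mul u (-1) 1 one_pos
      rw [show (1 : ℤ).toNat = 1 from rfl, zpow_neg_one] at h7
      have h9 : PowerSeries.mk (fun N => PowerSeries.coeff N (C τ)) = C τ := by
        ext N
        rw [PowerSeries.coeff_mk]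
      rw [h9] at h6
      have h10 : D τ * ((1 - PowerSeries.C Y * PowerSeries.X ^ 1) * geoR u (-1) 1) =
          PowerSeries.C Y * PowerSeries.X ^ 1 * C τ * geoR u (-1) 1 := by
        rw [← h6, mul_assoc]
      rw [h7, mul_one, pow_one] at h10
      exact h10
  unfold FR
  rw [map_sum]
  refine Finset.sum_congr rfl fun τ _ => ?_
  change PowerSeries.coeff N (PowerSeries.C ((u : R) ^ frc m J τ) *
          (PowerSeries.C (b0 τ) * C τ + PowerSeries.C (b1 τ) *
            (PowerSeries.C Y * PowerSeries.X * C τ * geoR u (-1) 1))) = _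
  rw [← hD, ← hL, PowerSeries.coeff_C_mul, map_add, PowerSeries.coeff_C_mul,
          PowerSeries.coeff_C_mul, hCc, hDdef, PowerSeries.coeff_mk, Finset.mul_sum]
  congr 2
  refine Finset.sum_congr rfl fun i _ => ?_
  split_ifs with hi
  · rw [hCc, h5 0 m 1 J τ hr0 one_pos N (N - 1 * i) (Nat.sub_le _ _), mul_assoc]
  · rw [mul_zero]

/-- the constant coefficient of the class formula, on the zero set -/
theorem fr_zero (u : Rˣ) (M : Meas K R) (m : Fin r → Fin n → ℕ) (c : Fin r → K)
    {W : Set (Pt K (Fin n))} (h0 : ∀ w ∈ W, aeval w (sp 0 m c 1) = 0)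
    (J : Finset (Fin n)) (b1 : Finset (Fin r) → R) :
    PowerSeries.coeff 0 (FR u m J (fun τ => M.χ _ (GB0 0 m c 1 W {a | a ≠ 0} J τ)) b1) = 0 := by
  classical
  unfold FR
  rw [map_sum]
  refine Finset.sum_eq_zero fun τ _ => ?_
  rw [PowerSeries.coeff_C_mul, map_add, PowerSeries.coeff_C_mul, PowerSeries.coeff_C_mul]
  have e1 : PowerSeries.coeff 0 (PowerSeries.C ((u⁻¹ : Rˣ) : R) * PowerSeries.X *
      PowerSeries.map (evR u) (cser m J τ) * geoR u (-1) 1) = 0 := by
    have : PowerSeries.C ((u⁻¹ : Rˣ) : R) * PowerSeries.X *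
      PowerSeries.map (evR u) (cser m J τ) * geoR u (-1) 1 = PowerSeries.X *
        (PowerSeries.C ((u⁻¹ : Rˣ) : R) * PowerSeries.map (evR u) (cser m J τ) *
          geoR u (-1) 1) := by ring
    rw [this, PowerSeries.coeff_zero_X_mul]
  rw [e1, mul_zero, add_zero]
  by_cases hτ : cp 0 m 1 J τ 0 0 = 0
  · rw [PowerSeries.coeff_map]
    unfold cser
    rw [PowerSeries.coeff_mk, hτ, map_zero, mul_zero, mul_zero]
  · -- the set is empty
    unfold cp at hτ
    obtain ⟨x, hx, -⟩ := Finset.exists_ne_zero_of_sum_ne_zero hτ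
    obtain ⟨-, hA, hm, hf⟩ := Finset.mem_filter.1 hx
    have hg : gord m x = 0 := by
      unfold ford at hf
      simpa using hf
    have hin : ∀ j ∈ τ, ∀ i ∈ J, m j i = 0 := by
      intro j hj i hi
      rw [← hm] at hj
      unfold amin at hj
      rw [Finset.mem_filter, hg] at hj
      have h1 := Finset.sum_eq_zero_iff.1 hj.2 i (Finset.mem_univ i)
      exact (Nat.mul_eq_zero.1 h1).resolve_left ((hA i).2 hi)
    have hout : ∀ j ∉ τ, ∃ i ∈ J, m j i ≠ 0 := by
      intro j hj
      by_contra hcon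
      push Not at hcon
      apply hj
      rw [← hm]
      unfold amin
      rw [Finset.mem_filter, hg]
      refine ⟨Finset.mem_univ _, Finset.sum_eq_zero fun i _ => ?_⟩
      by_cases hi : i ∈ J
      · rw [hcon i hi, mul_zero]
      · have : x i = 0 := by
          by_contra h
          exact hi ((hA i).1 h)
        rw [this, zero_mul]
    have hemp : GB0 0 m c 1 W {a | a ≠ 0} J τ = ∅ := by
      rw [Set.eq_empty_iff_forall_notMem]
      rintro z ⟨h1, h2, h3, h4⟩
      apply h4
      have h5 := h0 _ h1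
      unfold sp at h5
      simp only [Pi.zero_apply, pow_zero, Finset.prod_const_one, one_mul, pow_one, map_sum,
        map_mul, map_prod, map_pow, aeval_X, algHom_C] at h5
      simp only [Pi.zero_apply, pow_zero, Finset.prod_const_one, one_mul, pow_one]
      rw [← h5]
      unfold gbar
      rw [← Finset.sum_subset (Finset.subset_univ τ)]
      · refine Finset.sum_congr rfl fun j hj => ?_
        congr 1
        refine Finset.prod_congr rfl fun i _ => ?_
        by_cases hi : i ∈ J
        · rw [hin j hj i hi, pow_zero, pow_zero]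
        · rw [if_neg hi]
      · intro j _ hj
        obtain ⟨i, hi, hji⟩ := hout j hj
        rw [Finset.prod_eq_zero (Finset.mem_univ i), mul_zero]
        rw [if_pos hi, zero_pow hji]
    beta_reduce
    rw [hemp, χ_empty, zero_mul, mul_zero]

/-- **The series of the volumes of a nondegenerate polynomial: only the rays which are not bad.** -/
theorem vfin_bad {n r : ℕ} (m : Fin r → Fin n → ℕ) (hr0 : 0 < r) (Bad : ℚ → Prop)
    (hB : ∀ J : Finset (Fin n), ∀ q : ℕ, 2 ≤ q → ∀ e : Finset (Fin r) → ℂ, KRelJ q m J e →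
      ∀ T0 : ℂ, T0 ≠ 0 → ∀ σ : ℚ, Bad σ → Real.log ‖T0‖ / Real.log q = (σ : ℝ) →
      RecJ q m e J T0) :
    ∃ S : Finset (ℤ × ℤ),
      (∀ p ∈ S, p = (-1, 1) ∨ ∃ a : Fin n → ℕ, IsRay m a ∧ 0 < gord m a ∧
        ¬ Bad (((∑ i, a i : ℕ) : ℚ) / gord m a) ∧
        p = (-((∑ i, a i : ℕ) : ℤ), (gord m a : ℤ))) ∧
      ∀ (K : Type) [Field K] [CharZero K] (c : Fin r → K), NonG m c → (∀ j, c j ≠ 0) →
      ∀ {R : Type} [CommRing R] (M : Meas K R) (u : Rˣ), M.L = (u : R) →
      ∀ (W : Set (Pt K (Fin n))), Constr W →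
        VW M ((u⁻¹ : Rˣ) : R) (fun _ : Fin 1 => sp 0 m c 1) W ∈ ratR u (S : Set (ℤ × ℤ)) := by
  classical
  have hFree : S_Free := Pool.Agent.W417.MT.Free.main
  have hSub : S_Sub := Pool.Agent.W21.MTSub.main
  have hTay : S_Tay := Pool.Agent.W417.MT.Tay.main
  choose l hl hG using fun J : Finset (Fin n) => formal hr0 m J Bad (hB J)
  set S : Finset (ℤ × ℤ) := insert (-1, 1) (Finset.univ.biUnion fun J : Finset (Fin n) =>
    (l J).toFinset.image fun a => (-((∑ i, a i : ℕ) : ℤ), (gord m a : ℤ))) with hS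
  have hS1 : ((-1 : ℤ), (1 : ℤ)) ∈ S := Finset.mem_insert_self _ _
  have hS2 : ∀ J, ∀ a ∈ l J, (-((∑ i, a i : ℕ) : ℤ), (gord m a : ℤ)) ∈ S :=
    fun J a ha => Finset.mem_insert_of_mem (Finset.mem_biUnion.2 ⟨J, Finset.mem_univ _,
      Finset.mem_image.2 ⟨a, List.mem_toFinset.2 ha, rfl⟩⟩)
  refine ⟨S, fun p hp => ?_, ?_⟩
  · rcases Finset.mem_insert.1 hp with rfl | hp
    · exact Or.inl rfl
    · right
      obtain ⟨J, -, hp⟩ := Finset.mem_biUnion.1 hp
      obtain ⟨a, ha, rfl⟩ := Finset.mem_image.1 hp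
      obtain ⟨ha1, ha2, ha3⟩ := hl J a (List.mem_toFinset.1 ha)
      exact ⟨a, ha1, ha2, ha3, rfl⟩
  · intro K _ _ c hNon hc R _ M u hL W₀ hW₀
    set Y : R := ((u⁻¹ : Rˣ) : R) with hY
    have hv : M.L * Y = 1 := by rw [hL, Units.mul_inv]
    set f : MvPolynomial (Fin n) K := sp 0 m c 1 with hf
    -- the zero set
    have hzero : ∀ W : Set (Pt K (Fin n)), Constr W → (∀ w ∈ W, aeval w f = 0) →
        VW M Y (fun _ : Fin 1 => f) W ∈ ratR u (S : Set (ℤ × ℤ)) := by
      intro W hW h0
      set b0 : Finset (Fin n) → Finset (Fin r) → R := fun J τ =>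
        M.χ _ (GB0 0 m c 1 W {a | a ≠ 0} J τ) with hb0
      set b1 : Finset (Fin n) → Finset (Fin r) → R := fun J τ =>
        M.χ _ (GB1 0 m c 1 W {a | a ≠ 0} J τ) with hb1
      set b' : Finset (Fin n) → Finset (Fin r) → R := fun J τ =>
        M.χ _ (GB1 0 m c 1 W {1} J τ) with hb'
      have hV : ∀ J, ∃ V ∈ ratR u (S : Set (ℤ × ℤ)), (1 - PowerSeries.X) * V =
          PowerSeries.C (b' J ∅) - PowerSeries.X * FR u m J (b0 J) (b1 J) := by
        intro J
        refine inRat_V u hr0 hS1 m J (l J) (fun a ha => ⟨(hl J a ha).2.1, hS2 J a ha⟩) (hG J)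
          (b' J ∅) (b' J) (b0 J) (b1 J) rfl ?_ ?_ ?_
        · intro i hi j0 hj0 τ hτ
          rw [← hL]
          exact b1_rel hFree hSub M m c hc hW good_one J i hi j0 hj0 τ hτ
        · intro τ
          rw [← hL]
          exact rel0 hFree M m c hW J τ
        · intro τ
          rw [← hL]
          exact rel1 hFree M m c hW J τ
      choose V hV1 hV2 using hV
      have hVs : (1 - PowerSeries.X) * ∑ J, V J = PowerSeries.C (M.χ _ W) -
          PowerSeries.X * ∑ J, FR u m J (b0 J) (b1 J) := by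
        rw [Finset.mul_sum, Finset.mul_sum, Finset.sum_congr rfl fun J _ => hV2 J,
          Finset.sum_sub_distrib, chi_strata M m c hW, map_sum]
      have hF : ∀ N, PowerSeries.coeff N (∑ J, FR u m J (b0 J) (b1 J)) =
          PowerSeries.coeff N (∑ J, V J) - PowerSeries.coeff (N + 1) (∑ J, V J) := by
        intro N
        have h1 := congrArg (PowerSeries.coeff (N + 1)) hVs
        rw [sub_mul, one_mul, map_sub, map_sub, PowerSeries.coeff_succ_X_mul,
          PowerSeries.coeff_succ_X_mul, PowerSeries.coeff_C, if_neg (Nat.succ_ne_zero N)] at h1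
        linear_combination h1
      have h00 : PowerSeries.coeff 0 (∑ J, V J) = M.χ _ W := by
        have h1 := congrArg (PowerSeries.coeff 0) hVs
        rw [sub_mul, one_mul, map_sub, map_sub, PowerSeries.coeff_zero_X_mul,
          PowerSeries.coeff_zero_X_mul, PowerSeries.coeff_C, if_pos rfl, sub_zero, sub_zero] at h1
        exact h1
      have hid : VW M Y (fun _ : Fin 1 => f) W = PowerSeries.C (Y ^ n) * ∑ J, V J := by
        refine diff_unique ?_ ?_
        · rw [coeff_VW, vol_zero M hv _ hW, PowerSeries.coeff_C_mul, h00, Fintype.card_fin,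
            mul_comm]
        · rw [← ZW_eq]
          ext N
          rw [map_sub, coeff_sh, PowerSeries.coeff_C_mul, PowerSeries.coeff_C_mul, ← mul_sub,
            ← hF, ZW_coeff M hv _ hW, jetF_one, Fintype.card_fin, map_sum]
          rcases Nat.eq_zero_or_pos N with rfl | hN
          · have h1 : JetS f W {c | c ≠ 0} 0 = ∅ := by
              rw [Set.eq_empty_iff_forall_notMem]
              rintro z ⟨h1, -, h2⟩
              apply h2
              have h3 := h0 _ h1
              rw [← h3]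
              rw [Pool.Agent.Q49.CO.coeff_zero_aevalK]
              congr 2
              funext i
              exact Pool.Agent.TH192.MT.coeff_ar_zero z i
            rw [h1, χ_empty, zero_mul, Finset.sum_eq_zero fun J _ => fr_zero u M m c h0 J (b1 J),
              mul_zero]
          · have h6 := Pool.Agent.W425.MM.Mot.sum hFree hSub hTay M 0 m c 1 hW good_units hNon
              one_pos Y hv N hN
            rw [Finset.sum_congr rfl fun J _ => fr_coeff u M hL m J (b0 J) (b1 J) hr0 N hN, ← h6]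
            rw [mul_add, mul_one, pow_add]
            change M.χ _ (JetG f W {c | c ≠ 0} N) * _ = _
            ring
      rw [hid]
      exact (ratR u (S : Set (ℤ × ℤ))).mul_mem (Pool.Agent.TH216.MF.CR_mem u _ _)
        ((ratR u (S : Set (ℤ × ℤ))).sum_mem fun J _ => hV1 J)
    -- the general case
    have hZ : Constr {w : Pt K (Fin n) | aeval w f = 0} := Constr.eqz (IsPF.poly _)
    have h1 : W₀ = (W₀ ∩ {w | aeval w f = 0}) ∪ (W₀ ∩ {w | aeval w f = 0}ᶜ) :=
      (Set.inter_union_compl _ _).symm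
    rw [h1, VW_add M Y _ (hW₀.inter hZ) (hW₀.inter hZ.compl)
      (Set.disjoint_left.2 fun z hz hz' => hz'.2 hz.2)]
    refine (ratR u (S : Set (ℤ × ℤ))).add_mem (hzero _ (hW₀.inter hZ) fun w hw => hw.2) ?_
    have hne : ∀ w ∈ W₀ ∩ {w : Pt K (Fin n) | aeval w f = 0}ᶜ, ∃ j : Fin 1,
        aeval w ((fun _ : Fin 1 => f) j) ≠ 0 := fun w hw => ⟨0, fun h => hw.2 h⟩
    rw [VW_off M hv (fun _ : Fin 1 => f) (hW₀.inter hZ.compl) hne]
    exact Pool.Agent.TH216.MF.CR_mem u _ _

end main

end Pool.Agent.H1.VS
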