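import Pool.Agent.H1.VS.Uni

set_option autoImplicit false

/-! # From classes with relations to the rationality of the series of the volumes -/

namespace Pool.Agent.H1.VS

open Pool.Agent.TH216.MF
open Pool.Agent.W426.SM (gord IsRay)
open Pool.Agent.W428.MOT (geoR cp)

variable {R : Type} [CommRing R] (u : Rˣ) {r N : ℕ}

theorem frc_none (v : Fin r → Fin N → ℕ) (J : Finset (Fin N)) : frc v J ∅ = J.card := by
  classical
  unfold frc
  congr 1
  ext i
  unfold Pool.Agent.W428.MOT.free
  simp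

/-- the series of one stratum -/
theorem fr_eq (v : Fin r → Fin N → ℕ) (J : Finset (Fin N)) (w : R)
    (b b0 b1 : Finset (Fin r) → R) (hw : b ∅ = w)
    (hrel : ∀ i ∈ J, ∀ j0, v j0 i = 1 → ∀ τ, (∀ j ∈ τ, v j i = 0) →
      b (insert j0 τ) = w * ((u : R) - 1) ^ (J.card - frc v J (insert j0 τ) - 1) -
        ((u : R) - 1) ^ (frc v J τ - frc v J (insert j0 τ) - 1) * b τ)
    (hb0 : ∀ τ, b0 τ = w * ((u : R) - 1) ^ (J.card - frc v J τ) - b τ)
    (hb1 : ∀ τ, b1 τ = ((u : R) - 1) * b τ) :
    (1 - PowerSeries.C ((u⁻¹ : Rˣ) : R) * PowerSeries.X) * FR u v J b0 b1 =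
      PowerSeries.C ((u : R) ^ J.card) * (PowerSeries.C (w * (1 - ((u⁻¹ : Rˣ) : R))) *
        PowerSeries.map (evR u) (Gd v J ∅) + (PowerSeries.X - 1) * ∑ κ ∈ Finset.univ.erase ∅,
          PowerSeries.C (b κ - w * ((u⁻¹ : Rˣ) : R) * ((u : R) - 1) ^ (J.card - frc v J κ)) *
            PowerSeries.map (evR u) (Gd v J κ)) := by
  classical
  set Y : R := ((u⁻¹ : Rˣ) : R) with hY
  have huY : (u : R) * Y = 1 := Units.mul_inv u
  set c : Finset (Fin r) → R := fun τ => w * Y * ((u : R) - 1) ^ (J.card - frc v J τ) with hc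
  -- the homogeneous relations
  have hhom : ∀ τ, b τ - c τ = (-1) ^ (τ.card + (bas v J τ).card) *
        ((u : R) - 1) ^ (mx v J (bas v J τ) - (frc v J τ + τ.card)) *
          (b (bas v J τ) - c (bas v J τ)) := by
    intro τ
    refine decomp (u : R) v J (fun _ => True) (fun _ _ _ _ => trivial) (fun τ => b τ - c τ) ?_ τ
      trivial
    intro i hi j0 hj0 τ hτ _
    have h1 := free_step v J i hi j0 hj0 τ hτ
    have h2 := frc_le v J τ
    simp only [hc]
    rw [hrel i hi j0 hj0 τ hτ]
    set m := J.card - frc v J (insert j0 τ) - 1 with hm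
    set d := frc v J τ - frc v J (insert j0 τ) - 1 with hd
    have e1 : J.card - frc v J (insert j0 τ) = m + 1 := by omega
    have e2 : d + (J.card - frc v J τ) = m := by omega
    rw [e1, ← e2, pow_succ, pow_add]
    linear_combination (-(w * ((u : R) - 1) ^ d * ((u : R) - 1) ^ (J.card - frc v J τ))) * huY
  set Cs : Finset (Fin r) → PowerSeries R := fun τ => PowerSeries.map (evR u) (cser v J τ)
    with hCs
  -- the images of the universal series
  have hPsi : ∀ κ, PowerSeries.C ((u : R) ^ J.card) * PowerSeries.map (evR u) (Psi v J κ) =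
      ∑ τ, PowerSeries.C (if bas v J τ = κ then
        (-1) ^ (τ.card + κ.card) * ((u : R) - 1) ^ (mx v J κ - (frc v J τ + τ.card)) *
          (u : R) ^ frc v J τ else 0) * Cs τ := by
    intro κ
    unfold Psi
    rw [map_sum, Finset.mul_sum]
    refine Finset.sum_congr rfl fun τ _ => ?_
    rw [map_mul, PowerSeries.map_C, ← mul_assoc, ← map_mul, evR_cf]
  have hOmg : PowerSeries.C ((u : R) ^ J.card) * PowerSeries.map (evR u) (Omg v J) =
      ∑ τ, PowerSeries.C ((u : R) ^ frc v J τ * ((u : R) - 1) ^ (J.card - frc v J τ)) *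
        Cs τ := by
    unfold Omg
    rw [map_sum, Finset.mul_sum]
    refine Finset.sum_congr rfl fun τ _ => ?_
    rw [map_mul, PowerSeries.map_C, ← mul_assoc, ← map_mul, map_pow, map_sub, map_one, evR_X]
    congr 2
    obtain ⟨d, hd⟩ : ∃ d, J.card = frc v J τ + d := ⟨J.card - frc v J τ, by
      have := frc_le v J τ
      omega⟩
    rw [hd, show frc v J τ + d - frc v J τ = d by omega, pow_add, mul_assoc, ← mul_pow, mul_sub,
      mul_one, Units.mul_inv]
  have hgeo : (1 - PowerSeries.C Y * PowerSeries.X) * geoR u (-1) 1 = 1 := by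
    have h1 := geoR_mul u (-1) 1 one_pos
    rw [zpow_neg_one] at h1
    have h2 : (1 : ℤ).toNat = 1 := rfl
    rw [h2, pow_one] at h1
    exact h1
  -- the first form
  have e1 : (1 - PowerSeries.C Y * PowerSeries.X) * FR u v J b0 b1 =
      PowerSeries.C w * (1 - PowerSeries.C Y * PowerSeries.X) *
        (PowerSeries.C ((u : R) ^ J.card) * PowerSeries.map (evR u) (Omg v J)) +
        (PowerSeries.X - 1) * ∑ τ, PowerSeries.C ((u : R) ^ frc v J τ * b τ) * Cs τ := by
    rw [hOmg, Finset.mul_sum, Finset.mul_sum, ← Finset.sum_add_distrib]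
    unfold FR
    rw [Finset.mul_sum]
    refine Finset.sum_congr rfl fun τ _ => ?_
    rw [hb0, hb1]
    simp only [map_sub, map_mul, map_one, map_pow]
    have hu : PowerSeries.C (u : R) * PowerSeries.C Y = (1 : PowerSeries R) := by
      rw [← map_mul, huY, map_one]
    have hf : PowerSeries.map (evR u) (cser v J τ) = Cs τ := rfl
    rw [hf]
    linear_combination (PowerSeries.C (u : R) ^ frc v J τ * Cs τ * (PowerSeries.C (u : R) - 1) *
      PowerSeries.C (b τ) * (PowerSeries.C Y * PowerSeries.X)) * hgeo +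
      (PowerSeries.C (u : R) ^ frc v J τ * Cs τ * PowerSeries.C (b τ) * PowerSeries.X) * hu
  -- the second form
  have e2 : ∑ τ, PowerSeries.C ((u : R) ^ frc v J τ * b τ) * Cs τ =
      PowerSeries.C (w * Y) * (PowerSeries.C ((u : R) ^ J.card) *
        PowerSeries.map (evR u) (Omg v J)) + ∑ κ, PowerSeries.C (b κ - c κ) *
          (PowerSeries.C ((u : R) ^ J.card) * PowerSeries.map (evR u) (Psi v J κ)) := by
    have e3 : ∀ κ, PowerSeries.C (b κ - c κ) * (PowerSeries.C ((u : R) ^ J.card) *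
        PowerSeries.map (evR u) (Psi v J κ)) = ∑ τ, PowerSeries.C (b κ - c κ) *
        (PowerSeries.C (if bas v J τ = κ then
        (-1) ^ (τ.card + κ.card) * ((u : R) - 1) ^ (mx v J κ - (frc v J τ + τ.card)) *
          (u : R) ^ frc v J τ else 0) * Cs τ) := by
      intro κ
      rw [← Finset.mul_sum, ← hPsi κ]
    rw [hOmg, Finset.mul_sum, Finset.sum_congr rfl fun κ _ => e3 κ, Finset.sum_comm,
      ← Finset.sum_add_distrib]
    refine Finset.sum_congr rfl fun τ _ => ?_
    rw [Finset.sum_eq_single (bas v J τ)]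
    · rw [if_pos rfl]
      have h1 := hhom τ
      set s : R := (-1) ^ (τ.card + (bas v J τ).card) *
          ((u : R) - 1) ^ (mx v J (bas v J τ) - (frc v J τ + τ.card)) with hs
      have h2 : PowerSeries.C (b τ) = PowerSeries.C (c τ) +
            PowerSeries.C s * PowerSeries.C (b (bas v J τ) - c (bas v J τ)) := by
          rw [← map_mul, ← h1, ← map_add]
          congr 1
          ring
      have hcτ : PowerSeries.C (c τ) = PowerSeries.C (w * Y) *
            PowerSeries.C (((u : R) - 1) ^ (J.card - frc v J τ)) := by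
          rw [← map_mul]
      rw [map_mul, h2, hcτ, map_mul PowerSeries.C s, map_mul PowerSeries.C ((u : R) ^ frc v J τ)]
      ring
    · intro κ _ hκ
      rw [if_neg (Ne.symm hκ), map_zero, zero_mul, mul_zero]
    · intro h
      exact absurd (Finset.mem_univ _) h
  have e4 : b ∅ - c ∅ = w * (1 - Y) := by
    simp only [hc]
    rw [hw, frc_none, Nat.sub_self, pow_zero, mul_one]
    ring
  have e5 : PowerSeries.map (evR u) (Gd v J ∅) = (PowerSeries.X - 1) *
      PowerSeries.map (evR u) (Psi v J ∅) + PowerSeries.map (evR u) (Omg v J) := by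
    unfold Gd
    rw [if_pos rfl, map_add, map_mul, map_sub, map_one, PowerSeries.map_X]
  have e8 : ∑ κ ∈ Finset.univ.erase (∅ : Finset (Fin r)),
      PowerSeries.C (b κ - w * Y * ((u : R) - 1) ^ (J.card - frc v J κ)) *
        PowerSeries.map (evR u) (Gd v J κ) = ∑ κ ∈ Finset.univ.erase (∅ : Finset (Fin r)),
        PowerSeries.C (b κ - c κ) * PowerSeries.map (evR u) (Psi v J κ) := by
    refine Finset.sum_congr rfl fun κ hκ => ?_
    unfold Gd
    rw [if_neg (Finset.ne_of_mem_erase hκ)]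
  have e7 : ∑ κ ∈ Finset.univ.erase (∅ : Finset (Fin r)), PowerSeries.C (b κ - c κ) *
      (PowerSeries.C ((u : R) ^ J.card) * PowerSeries.map (evR u) (Psi v J κ)) =
      PowerSeries.C ((u : R) ^ J.card) * ∑ κ ∈ Finset.univ.erase (∅ : Finset (Fin r)),
        PowerSeries.C (b κ - c κ) * PowerSeries.map (evR u) (Psi v J κ) := by
    rw [Finset.mul_sum]
    refine Finset.sum_congr rfl fun κ _ => ?_
    ring
  rw [e1, e2, ← Finset.add_sum_erase _ _ (Finset.mem_univ (∅ : Finset (Fin r))), e4, e5, e8, e7]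
  simp only [map_mul, map_sub, map_one]
  ring

/-- **From classes with relations to the rationality of the series of the volumes.** -/
theorem inRat_V (hr : 0 < r) {S : Set (ℤ × ℤ)} (hS1 : ((-1 : ℤ), (1 : ℤ)) ∈ S)
    (v : Fin r → Fin N → ℕ) (J : Finset (Fin N)) (l : List (Fin N → ℕ))
    (hl : ∀ a ∈ l, 0 < gord v a ∧ (-((∑ i, a i : ℕ) : ℤ), (gord v a : ℤ)) ∈ S)
    (hG : ∀ κ, IsPol (Gd v J κ * (l.map (fac v)).prod)) (w : R)
    (b b0 b1 : Finset (Fin r) → R) (hw : b ∅ = w)
    (hrel : ∀ i ∈ J, ∀ j0, v j0 i = 1 → ∀ τ, (∀ j ∈ τ, v j i = 0) →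
      b (insert j0 τ) = w * ((u : R) - 1) ^ (J.card - frc v J (insert j0 τ) - 1) -
        ((u : R) - 1) ^ (frc v J τ - frc v J (insert j0 τ) - 1) * b τ)
    (hb0 : ∀ τ, b0 τ = w * ((u : R) - 1) ^ (J.card - frc v J τ) - b τ)
    (hb1 : ∀ τ, b1 τ = ((u : R) - 1) * b τ) :
    ∃ V ∈ ratR u S, (1 - PowerSeries.X) * V =
      PowerSeries.C w - PowerSeries.X * FR u v J b0 b1 := by
  classical
  have key := fr_eq u v J w b b0 b1 hw hrel hb0 hb1
  set Y : R := ((u⁻¹ : Rˣ) : R) with hY
  have huY : (u : R) * Y = 1 := Units.mul_inv u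
  obtain ⟨H, hH, hHp⟩ := formalV hr v J l (hG ∅)
  have hgeo : (1 - PowerSeries.C Y * PowerSeries.X) * geoR u (-1) 1 = 1 := by
    have h1 := geoR_mul u (-1) 1 one_pos
    rw [zpow_neg_one] at h1
    have h2 : (1 : ℤ).toNat = 1 := rfl
    rw [h2, pow_one] at h1
    exact h1
  have hGm : ∀ κ, PowerSeries.map (evR u) (Gd v J κ) ∈ ratR u S := fun κ =>
    ratR_mem u v l hl _ (hG κ)
  have hHm : PowerSeries.map (evR u) H ∈ ratR u S := ratR_mem u v l hl _ hHp
  set Sg : PowerSeries R := ∑ κ ∈ Finset.univ.erase (∅ : Finset (Fin r)),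
    PowerSeries.C (b κ - w * Y * ((u : R) - 1) ^ (J.card - frc v J κ)) *
      PowerSeries.map (evR u) (Gd v J κ) with hSg
  have hSgm : Sg ∈ ratR u S := (ratR u S).sum_mem fun κ _ =>
    (ratR u S).mul_mem (CR_mem u S _) (hGm κ)
  refine ⟨geoR u (-1) 1 * (PowerSeries.C ((u : R) ^ J.card) * (PowerSeries.C w *
    PowerSeries.map (evR u) H + PowerSeries.X * Sg)), ?_, ?_⟩
  · exact (ratR u S).mul_mem (geoR_mem u (p := ((-1 : ℤ), (1 : ℤ))) hS1)
      ((ratR u S).mul_mem (CR_mem u S _) ((ratR u S).add_mem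
        ((ratR u S).mul_mem (CR_mem u S _) hHm) ((ratR u S).mul_mem (XR_mem u S) hSgm)))
  · have h1 := congrArg (PowerSeries.map (evR u)) hH
    rw [map_mul, map_sub, map_sub, map_mul, map_sub, map_one, PowerSeries.map_X,
      PowerSeries.map_C, map_mul, PowerSeries.map_C, PowerSeries.map_X, map_mul, map_mul,
      PowerSeries.map_C, PowerSeries.map_X, map_pow, evR_X, map_sub, map_one, evR_X] at h1
    have h2 : PowerSeries.C ((u : R) ^ J.card) * PowerSeries.C (Y ^ J.card) =
        (1 : PowerSeries R) := by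
      rw [← map_mul, ← mul_pow, huY, one_pow, map_one]
    -- multiply by the unit
    have h3 : (1 - PowerSeries.C Y * PowerSeries.X) * ((1 - PowerSeries.X) *
        (geoR u (-1) 1 * (PowerSeries.C ((u : R) ^ J.card) * (PowerSeries.C w *
        PowerSeries.map (evR u) H + PowerSeries.X * Sg)))) =
        (1 - PowerSeries.C Y * PowerSeries.X) * (PowerSeries.C w -
          PowerSeries.X * FR u v J b0 b1) := by
      simp only [map_mul, map_sub, map_one] at h1 key h2 ⊢
      linear_combination ((1 - PowerSeries.X) * (PowerSeries.C ((u : R) ^ J.card) *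
        (PowerSeries.C w * PowerSeries.map (evR u) H + PowerSeries.X * Sg))) * hgeo +
        (PowerSeries.C ((u : R) ^ J.card) * PowerSeries.C w) * h1 +
        (PowerSeries.C w * (1 - PowerSeries.C Y * PowerSeries.X)) * h2 +
        PowerSeries.X * key
    exact (IsUnit.of_mul_eq_one _ hgeo).mul_left_cancel h3

end Pool.Agent.H1.VS
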