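import Pool.Graph.R_seed8.TH216.MF.MotE

set_option autoImplicit false

/-! # The universal series of the volumes of the sets `ord ≥ N` -/

namespace Pool.Agent.H1.VS

open Pool.Agent.TH216.MF
open Pool.Agent.W426.SM (gord)
open Pool.Agent.W803.SM (filt)
open Pool.Agent.W428.MOT (Adm)

section analysis

/-- sums over `ℕ ^ N` of products -/
theorem hasSum_pi : ∀ {N : ℕ} (g : Fin N → ℕ → ℂ) (a : Fin N → ℂ), (∀ i, HasSum (g i) (a i)) →
    (∀ i, Summable fun k => ‖g i k‖) →
    HasSum (fun x : Fin N → ℕ => ∏ i, g i (x i)) (∏ i, a i) ∧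
      Summable fun x : Fin N → ℕ => ‖∏ i, g i (x i)‖ := by
  intro N
  induction N with
  | zero =>
    intro g a _ _
    constructor
    · have h1 := hasSum_fintype (fun x : Fin 0 → ℕ => (∏ i, g i (x i) : ℂ))
      simp at h1 ⊢
    · exact (hasSum_fintype _).summable
  | succ N ih =>
    intro g a h hn
    obtain ⟨h1, h2⟩ := ih (fun i => g i.succ) (fun i => a i.succ) (fun i => h i.succ)
      fun i => hn i.succ
    have h3 := summable_mul_of_summable_norm (hn 0) h2
    have h4 := tsum_mul_tsum_of_summable_norm (hn 0) h2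
    have h5 : HasSum (fun x : ℕ × (Fin N → ℕ) => g 0 x.1 * ∏ i : Fin N, g i.succ (x.2 i))
        (a 0 * ∏ i : Fin N, a i.succ) := by
      rw [← (h 0).tsum_eq, ← h1.tsum_eq, h4]
      exact h3.hasSum
    have h6 : (fun x : Fin (N + 1) → ℕ => ∏ i, g i (x i)) ∘ (Fin.consEquiv fun _ => ℕ) =
        fun x : ℕ × (Fin N → ℕ) => g 0 x.1 * ∏ i : Fin N, g i.succ (x.2 i) := by
      funext x
      simp only [Function.comp_apply, Fin.consEquiv_apply, Fin.prod_univ_succ, Fin.cons_zero,
        Fin.cons_succ]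
    constructor
    · rw [Fin.prod_univ_succ, ← (Fin.consEquiv fun _ => ℕ).hasSum_iff, h6]
      exact h5
    · rw [← (Fin.consEquiv fun _ => ℕ).summable_iff]
      have h7 : (fun x : Fin (N + 1) → ℕ => ‖∏ i, g i (x i)‖) ∘ (Fin.consEquiv fun _ => ℕ) =
          fun x : ℕ × (Fin N → ℕ) => ‖g 0 x.1‖ * ‖∏ i : Fin N, g i.succ (x.2 i)‖ := by
        funext x
        have h8 := congrFun h6 x
        simp only [Function.comp_apply] at h8 ⊢
        rw [h8, norm_mul]
      rw [h7]
      exact (hn 0).mul_of_nonneg h2 (fun _ => norm_nonneg _) fun _ => norm_nonneg _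

theorem hasSum_geo (q : ℕ) (hq : 2 ≤ q) : HasSum (fun k : ℕ => if k = 0 then 0 else
    (q : ℂ)⁻¹ ^ k) (((q : ℂ) - 1)⁻¹) ∧ Summable fun k : ℕ => ‖(if k = 0 then 0 else
    (q : ℂ)⁻¹ ^ k : ℂ)‖ := by
  have hq1 : ‖(q : ℂ)⁻¹‖ < 1 := by
    rw [norm_inv, Complex.norm_natCast]
    have : (1 : ℝ) < q := by exact_mod_cast (by omega : 1 < q)
    exact inv_lt_one_of_one_lt₀ this
  have hq0 : (q : ℂ) ≠ 0 := q_ne hq
  have hq2 : (q : ℂ) - 1 ≠ 0 := by
    intro h
    have h1 : (q : ℂ) = ((1 : ℕ) : ℂ) := by rw [Nat.cast_one]; linear_combination h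
    have : q = 1 := by exact_mod_cast h1
    omega
  constructor
  · have h1 := hasSum_geometric_of_norm_lt_one hq1
    have h2 := h1.sub (hasSum_ite_eq 0 (1 : ℂ))
    have h3 : (fun k : ℕ => (q : ℂ)⁻¹ ^ k - if k = 0 then 1 else 0) =
        fun k : ℕ => if k = 0 then 0 else (q : ℂ)⁻¹ ^ k := by
      funext k
      by_cases hk : k = 0
      · rw [if_pos hk, if_pos hk, hk, pow_zero, sub_self]
      · rw [if_neg hk, if_neg hk, sub_zero]
    rw [h3] at h2
    have h4 : (1 - (q : ℂ)⁻¹)⁻¹ - 1 = ((q : ℂ) - 1)⁻¹ := by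
      have h5 : 1 - (q : ℂ)⁻¹ ≠ 0 := by
        intro h
        apply hq2
        have h6 : (q : ℂ) * (1 - (q : ℂ)⁻¹) = 0 := by rw [h, mul_zero]
        rw [mul_sub, mul_one, mul_inv_cancel₀ hq0] at h6
        exact h6
      field_simp
      ring
    rw [h4] at h2
    exact h2
  · refine Summable.of_nonneg_of_le (fun _ => norm_nonneg _) (fun k => ?_)
      (summable_geometric_of_norm_lt_one (x := ‖(q : ℂ)⁻¹‖) (by rwa [norm_norm]))
    by_cases hk : k = 0
    · rw [if_pos hk, norm_zero]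
      positivity
    · rw [if_neg hk, norm_pow]

/-- the lattice points with a given support -/
theorem hasSum_adm (q : ℕ) (hq : 2 ≤ q) {N : ℕ} (J : Finset (Fin N)) :
    HasSum (fun x : Fin N → ℕ => iv (Adm J x) ((q : ℂ)⁻¹ ^ (∑ i, x i)))
      (((q : ℂ) - 1)⁻¹ ^ J.card) := by
  classical
  obtain ⟨h1, h2⟩ := hasSum_geo q hq
  have h3 := (hasSum_pi (fun (i : Fin N) (k : ℕ) => if i ∈ J then (if k = 0 then 0 else
    (q : ℂ)⁻¹ ^ k) else if k = 0 then 1 else 0) (fun i => if i ∈ J then ((q : ℂ) - 1)⁻¹ else 1)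
    (fun i => by
      by_cases hi : i ∈ J
      · simp only [if_pos hi]
        exact h1
      · simp only [if_neg hi]
        exact hasSum_ite_eq 0 (1 : ℂ)) (fun i => by
      by_cases hi : i ∈ J
      · simp only [if_pos hi]
        exact h2
      · simp only [if_neg hi]
        refine (hasSum_ite_eq 0 (1 : ℝ)).summable.congr fun k => ?_
        split_ifs <;> simp)).1
  have h4 : (∏ i, if i ∈ J then ((q : ℂ) - 1)⁻¹ else 1) = ((q : ℂ) - 1)⁻¹ ^ J.card := by
    rw [Finset.prod_ite_mem, Finset.univ_inter, Finset.prod_const]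
  rw [h4] at h3
  have h5 : (fun x : Fin N → ℕ => iv (Adm J x) ((q : ℂ)⁻¹ ^ (∑ i, x i))) = fun x : Fin N → ℕ =>
      ∏ i, (fun (i : Fin N) (k : ℕ) => if i ∈ J then (if k = 0 then 0 else
        (q : ℂ)⁻¹ ^ k) else if k = 0 then 1 else 0) i (x i) := by
    funext x
    by_cases hx : Adm J x
    · rw [iv_pos hx, ← Finset.prod_pow_eq_pow_sum]
      refine Finset.prod_congr rfl fun i _ => ?_
      beta_reduce
      by_cases hi : i ∈ J
      · rw [if_pos hi, if_neg ((hx i).2 hi)]
      · have h6 : x i = 0 := by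
          by_contra h
          exact hi ((hx i).1 h)
        rw [if_neg hi, if_pos h6, h6, pow_zero]
    · rw [iv_neg hx]
      unfold Adm at hx
      push Not at hx
      obtain ⟨i, hi⟩ := hx
      refine (Finset.prod_eq_zero (Finset.mem_univ i) ?_).symm
      beta_reduce
      rcases hi with ⟨h6, h7⟩ | ⟨h6, h7⟩
      · rw [if_neg h7, if_neg h6]
      · rw [if_pos h7, if_pos h6]
  rw [h5]
  exact h3

/-- sums over the values of a function -/
theorem hasSum_iv {X : Type} (F : X → ℂ) (a : ℂ) (h : HasSum F a) (g : X → ℕ) :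
    HasSum (fun M => ∑' x, iv (g x = M) (F x)) a := by
  have h1 := h.tsum_fiberwise g
  have h2 : (fun M : ℕ => ∑' x, iv (g x = M) (F x)) = fun M => ∑' x : ↥(g ⁻¹' {M}), F x := by
    funext M
    rw [tsum_subtype (g ⁻¹' {M}) F]
    refine tsum_congr fun x => ?_
    by_cases hx : g x = M
    · rw [iv_pos hx, Set.indicator_of_mem (show x ∈ g ⁻¹' {M} from hx)]
    · rw [iv_neg hx, Set.indicator_of_notMem (show x ∉ g ⁻¹' {M} from hx)]
  rw [h2]
  exact h1

theorem iv_and {P Q : Prop} (a : ℂ) : iv (P ∧ Q) a = iv Q (iv P a) := by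
  by_cases hQ : Q
  · by_cases hP : P
    · rw [iv_pos ⟨hP, hQ⟩, iv_pos hQ, iv_pos hP]
    · rw [iv_neg fun h => hP h.1, iv_pos hQ, iv_neg hP]
  · rw [iv_neg fun h => hQ h.2, iv_neg hQ]

variable {r N : ℕ}

/-- the values are summable -/
theorem hasSum_Sm (q : ℕ) (hq : 2 ≤ q) (v : Fin r → Fin N → ℕ) (J : Finset (Fin N))
    (e : Finset (Fin r) → ℂ) : ∃ a, HasSum (Sm q v J e) a := by
  have h1 := summable_Q q hq (fun x : Fin N → ℕ => Adm J x) (fun x => e (filt v x))
    (∑ J, ‖e J‖) fun x => Finset.single_le_sum (f := fun J => ‖e J‖)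
      (fun _ _ => norm_nonneg _) (Finset.mem_univ _)
  refine ⟨∑' x : Fin N → ℕ, iv (Adm J x) ((q : ℂ)⁻¹ ^ (∑ i, x i) * e (filt v x)), ?_⟩
  have h2 := hasSum_iv _ _ h1.hasSum (gord v)
  have h3 : Sm q v J e = fun M => ∑' x : Fin N → ℕ, iv (gord v x = M) (iv (Adm J x)
      ((q : ℂ)⁻¹ ^ (∑ i, x i) * e (filt v x))) := by
    funext M
    unfold Sm
    exact tsum_congr fun x => iv_and _
  rw [h3]
  exact h2

/-- the total mass -/
theorem hasSum_Sm_const (q : ℕ) (hq : 2 ≤ q) (v : Fin r → Fin N → ℕ) (J : Finset (Fin N))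
    (c : ℂ) : HasSum (Sm q v J fun _ => c) (((q : ℂ) - 1)⁻¹ ^ J.card * c) := by
  have h1 := (hasSum_adm q hq J).mul_right c
  have h2 := hasSum_iv _ _ h1 (gord v)
  have h3 : (Sm q v J fun _ => c) = fun M => ∑' x : Fin N → ℕ, iv (gord v x = M)
      (iv (Adm J x) ((q : ℂ)⁻¹ ^ (∑ i, x i)) * c) := by
    funext M
    unfold Sm
    refine tsum_congr fun x => ?_
    rw [iv_and, iv_mul]
  rw [h3]
  exact h2

/-- the value at `T = 1` -/
def HS (A : PowerSeries ℂ) (a : ℂ) : Prop := HasSum (fun n => PowerSeries.coeff n A) a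

theorem HS.X_mul {A : PowerSeries ℂ} {a : ℂ} (h : HS A a) : HS (PowerSeries.X * A) a := by
  unfold HS at h ⊢
  rw [← hasSum_nat_add_iff' 1]
  simp only [Finset.range_one, Finset.sum_singleton, PowerSeries.coeff_zero_X_mul, sub_zero,
    PowerSeries.coeff_succ_X_mul]
  exact h

theorem HS.C_mul {A : PowerSeries ℂ} {a : ℂ} (c : ℂ) (h : HS A a) :
    HS (PowerSeries.C c * A) (c * a) := by
  unfold HS at h ⊢
  simp only [PowerSeries.coeff_C_mul]
  exact h.mul_left c

theorem HS.add {A B : PowerSeries ℂ} {a b : ℂ} (h : HS A a) (h' : HS B b) :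
    HS (A + B) (a + b) := by
  unfold HS at h h' ⊢
  simp only [map_add]
  exact HasSum.add h h'

theorem HS.poly_mul {A : PowerSeries ℂ} {a : ℂ} (h : HS A a) (P : Polynomial ℂ) :
    HS ((P : PowerSeries ℂ) * A) (P.eval 1 * a) := by
  induction P using Polynomial.induction_on' with
  | add P Q hP hQ =>
    rw [Polynomial.coe_add, add_mul, Polynomial.eval_add, add_mul]
    exact hP.add hQ
  | monomial n c =>
    have h1 : ∀ n : ℕ, HS (PowerSeries.X ^ n * A) a := by
      intro n
      induction n with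
      | zero => rw [pow_zero, one_mul]; exact h
      | succ n ih => rw [pow_succ', mul_assoc]; exact ih.X_mul
    rw [← Polynomial.C_mul_X_pow_eq_monomial, Polynomial.coe_mul, Polynomial.coe_C,
      Polynomial.coe_pow, Polynomial.coe_X, mul_assoc, Polynomial.eval_mul, Polynomial.eval_C,
      Polynomial.eval_pow, Polynomial.eval_X, one_pow, mul_one]
    exact (h1 n).C_mul c

theorem HS.one : HS 1 1 := by
  unfold HS
  have h1 : (fun n => PowerSeries.coeff n (1 : PowerSeries ℂ)) = fun n => if n = 0 then 1 else 0 := by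
    funext n
    exact PowerSeries.coeff_one n
  rw [h1]
  exact hasSum_ite_eq 0 1

theorem HS.poly (P : Polynomial ℂ) : HS (P : PowerSeries ℂ) (P.eval 1) := by
  have h1 := HS.one.poly_mul P
  rwa [mul_one, mul_one] at h1

/-- **The value of the regular series at `T = 1`.** -/
theorem hs_gd (hr : 0 < r) (q : ℕ) (hq : 2 ≤ q) (v : Fin r → Fin N → ℕ) (J : Finset (Fin N)) :
    HS (PowerSeries.map (evq q) (Gd v J ∅)) ((q : ℂ)⁻¹ ^ J.card) := by
  have hq2 : (q : ℂ) - 1 ≠ 0 := by
    intro h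
    have h1 : (q : ℂ) = ((1 : ℕ) : ℂ) := by rw [Nat.cast_one]; linear_combination h
    have : q = 1 := by exact_mod_cast h1
    omega
  obtain ⟨b, hb⟩ := hasSum_Sm q hq v J (eK q v J ∅)
  have hP : HS (PowerSeries.map (evq q) (Psi v J ∅)) ((q : ℂ)⁻¹ ^ J.card * b) := by
    unfold HS
    simp only [PowerSeries.coeff_map, coeff_Psi hr hq]
    exact hb.mul_left _
  have hO : HS (PowerSeries.map (evq q) (Omg v J)) ((q : ℂ)⁻¹ ^ J.card) := by
    unfold HS
    simp only [PowerSeries.coeff_map, coeff_Omg hr hq]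
    have h1 := (hasSum_Sm_const q hq v J (((q : ℂ) - 1) ^ J.card)).mul_left ((q : ℂ)⁻¹ ^ J.card)
    rw [← mul_pow, inv_mul_cancel₀ hq2, one_pow, mul_one] at h1
    exact h1
  have h1 : PowerSeries.map (evq q) (Gd v J ∅) =
      ((Polynomial.X - 1 : Polynomial ℂ) : PowerSeries ℂ) * PowerSeries.map (evq q) (Psi v J ∅) +
        PowerSeries.map (evq q) (Omg v J) := by
    unfold Gd
    rw [if_pos rfl, map_add, map_mul, map_sub, map_one, PowerSeries.map_X]
    push_cast
    rfl
  rw [h1]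
  have h2 := (hP.poly_mul (Polynomial.X - 1)).add hO
  rw [Polynomial.eval_sub, Polynomial.eval_X, Polynomial.eval_one, sub_self, zero_mul,
    zero_add] at h2
  exact h2

/-- a polynomial which vanishes at all the `1 / q` -/
theorem poly_zero (D : Polynomial ℤ) (h : ∀ q : ℕ, 2 ≤ q → evq q D = 0) : D = 0 := by
  have h1 : D.map (Int.castRingHom ℂ) = 0 := by
    refine Polynomial.eq_zero_of_infinite_isRoot _ ?_
    refine Set.Infinite.mono ?_ (Set.infinite_range_of_injective
      (f := fun n : ℕ => (((n + 2 : ℕ) : ℂ))⁻¹) fun a b hab => ?_)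
    · rintro _ ⟨n, rfl⟩
      change Polynomial.eval _ _ = 0
      rw [Polynomial.eval_map]
      exact h (n + 2) (by omega)
    · have h2 : ((a + 2 : ℕ) : ℂ) = ((b + 2 : ℕ) : ℂ) := inv_injective hab
      have h3 : a + 2 = b + 2 := by exact_mod_cast h2
      omega
  exact (Polynomial.map_eq_zero_iff (RingHom.injective_int _)).1 h1

/-- **The value at `T = 1`, as a polynomial.** -/
theorem gd_one (hr : 0 < r) (v : Fin r → Fin N → ℕ) (J : Finset (Fin N))
    (F P : Polynomial (Polynomial ℤ))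
    (hP : Gd v J ∅ * (F : PowerSeries (Polynomial ℤ)) = (P : PowerSeries (Polynomial ℤ))) :
    P.eval 1 = Polynomial.X ^ J.card * F.eval 1 := by
  rw [← sub_eq_zero]
  refine poly_zero _ fun q hq => ?_
  have h1 := congrArg (PowerSeries.map (evq q)) hP
  rw [map_mul, ← Polynomial.polynomial_map_coe, ← Polynomial.polynomial_map_coe, mul_comm] at h1
  have h2 := (hs_gd hr q hq v J).poly_mul (F.map (evq q))
  rw [h1] at h2
  have h3 := h2.unique (HS.poly (P.map (evq q)))
  rw [Polynomial.eval_one_map, Polynomial.eval_one_map] at h3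
  rw [map_sub, map_mul, map_pow, evq_X, ← h3]
  ring

/-- the geometric series -/
theorem one_sub_geo {A : Type} [CommRing A] :
    ((1 : PowerSeries A) - PowerSeries.X) * PowerSeries.mk (fun _ => (1 : A)) = 1 := by
  ext n
  rw [sub_mul, one_mul, map_sub, PowerSeries.coeff_mk, PowerSeries.coeff_one]
  rcases n with _ | n
  · rw [PowerSeries.coeff_zero_X_mul, sub_zero, if_pos rfl]
  · rw [PowerSeries.coeff_succ_X_mul, PowerSeries.coeff_mk, sub_self, if_neg (Nat.succ_ne_zero n)]

/-- **The universal series of the volumes.** -/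
theorem formalV (hr : 0 < r) (v : Fin r → Fin N → ℕ) (J : Finset (Fin N)) (l : List (Fin N → ℕ))
    (hG : IsPol (Gd v J ∅ * (l.map (fac v)).prod)) :
    ∃ H : PowerSeries (Polynomial ℤ), (1 - PowerSeries.X) * H =
      PowerSeries.C (Polynomial.X ^ J.card) * (1 - PowerSeries.C Polynomial.X * PowerSeries.X) -
        PowerSeries.X * PowerSeries.C (1 - Polynomial.X) * Gd v J ∅ ∧
      IsPol (H * (l.map (fac v)).prod) := by
  obtain ⟨P, hP⟩ := hG
  obtain ⟨F, hF⟩ := IsPol.facs v l
  rw [hF] at hP ⊢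
  have h1 := gd_one hr v J F P hP
  set Nn : Polynomial (Polynomial ℤ) := Polynomial.C (Polynomial.X ^ J.card) *
    (1 - Polynomial.C Polynomial.X * Polynomial.X) * F -
      Polynomial.X * Polynomial.C (1 - Polynomial.X) * P with hN
  have h2 : Nn.eval 1 = 0 := by
    rw [hN]
    simp only [Polynomial.eval_sub, Polynomial.eval_mul, Polynomial.eval_C, Polynomial.eval_one,
      Polynomial.eval_X, mul_one, one_mul]
    rw [h1]
    ring
  obtain ⟨Q, hQ⟩ := Polynomial.dvd_iff_isRoot.2 h2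
  set geo : PowerSeries (Polynomial ℤ) := PowerSeries.mk fun _ => (1 : Polynomial ℤ) with hgeo
  have h3 : (1 - PowerSeries.X) * geo = 1 := one_sub_geo
  refine ⟨geo * (PowerSeries.C (Polynomial.X ^ J.card) *
    (1 - PowerSeries.C Polynomial.X * PowerSeries.X) -
        PowerSeries.X * PowerSeries.C (1 - Polynomial.X) * Gd v J ∅), ?_, -Q, ?_⟩
  · rw [← mul_assoc, h3, one_mul]
  · have h4 : (Nn : PowerSeries (Polynomial ℤ)) = (PowerSeries.C (Polynomial.X ^ J.card) *
        (1 - PowerSeries.C Polynomial.X * PowerSeries.X) -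
        PowerSeries.X * PowerSeries.C (1 - Polynomial.X) * Gd v J ∅) *
          (F : PowerSeries (Polynomial ℤ)) := by
      rw [hN]
      push_cast
      rw [← hP]
      ring
    have h5 : (Nn : PowerSeries (Polynomial ℤ)) =
        (((Polynomial.X - Polynomial.C 1) * Q : Polynomial (Polynomial ℤ)) :
          PowerSeries (Polynomial ℤ)) := by rw [← hQ]
    rw [h4, Polynomial.coe_mul, Polynomial.coe_sub, Polynomial.coe_X, Polynomial.coe_C,
      map_one PowerSeries.C] at h5
    rw [mul_assoc, h5, Polynomial.coe_neg]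
    linear_combination (-(Q : PowerSeries (Polynomial ℤ))) * h3

end analysis

end Pool.Agent.H1.VS
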